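import Pool.Agent.V5helper57.OT.Stm

set_option autoImplicit false

/-!
# Project OT, job NP: no pair
-/

namespace Pool.Agent.V5helper9.OT

open Pool.Agent.V5helper57.OT

variable {K : Type} [Field K]

theorem quot {ui uj a b y yp : K} (hui : ui ≠ 0) (huj : uj ≠ 0) (hy : y ≠ 0)
    (e1 : ui * yp + a * y = 0) (e2 : uj * yp + b * y = 0) : a / ui = b / uj := by
  rw [div_eq_div_iff hui huj]
  apply mul_right_cancel₀ hy
  linear_combination uj * e1 - ui * e2

/-- exactly one `x` is different from zero -/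
theorem one {ui uj uk aij aji aik aki ci cj ck xi yj yk yp : K} (hui : ui ≠ 0) (hx : xi ≠ 0)
    (hc : ci * xi = 0) (hj : yj * (aji * xi) = 0) (hk : yk * (aki * xi) = 0)
    (gj : aij / ui * ci ≠ aji / uj * cj) (gk : aik / ui * ci ≠ aki / uk * ck)
    (h : ui * yp + (aij * yj + aik * yk) = 0) : yp = 0 ∧ yj = 0 ∧ yk = 0 := by
  have hci : ci = 0 := (mul_eq_zero.1 hc).resolve_right hx
  have hyj : yj = 0 := by
    by_contra h1
    have h2 : aji = 0 := by
      rcases mul_eq_zero.1 hj with h3 | h3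
      · exact absurd h3 h1
      · exact (mul_eq_zero.1 h3).resolve_right hx
    apply gj
    rw [hci, h2]
    simp
  have hyk : yk = 0 := by
    by_contra h1
    have h2 : aki = 0 := by
      rcases mul_eq_zero.1 hk with h3 | h3
      · exact absurd h3 h1
      · exact (mul_eq_zero.1 h3).resolve_right hx
    apply gk
    rw [hci, h2]
    simp
  refine ⟨?_, hyj, hyk⟩
  rw [hyj, hyk, mul_zero, mul_zero, add_zero, add_zero] at h
  exact (mul_eq_zero.1 h).resolve_left hui

/-- exactly two `x` are different from zero -/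
theorem two {ui uj aik ajk yk yp : K} (hui : ui ≠ 0) (huj : uj ≠ 0)
    (e1 : ui * yp + aik * yk = 0) (e2 : uj * yp + ajk * yk = 0) (g : aik / ui ≠ ajk / uj) :
    yp = 0 ∧ yk = 0 := by
  by_cases hy : yk = 0
  · rw [hy, mul_zero, add_zero] at e1
    exact ⟨(mul_eq_zero.1 e1).resolve_left hui, hy⟩
  · exact absurd (quot hui huj hy e1 e2) g

theorem core (u : Fin 3 → K) (A : Fin 3 → Fin 3 → K) (c : Fin 3 → K) (hu : ∀ i, u i ≠ 0)
    (hG : GoodA u A c) (yp : K) (x y : Fin 3 → K) (hxy : ∀ i, x i * y i = 0)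
    (h1 : ∀ i, x i * (u i * yp + ∑ j, A i j * y j) = 0)
    (h2 : ∀ i, y i * (∑ j, A i j * x j) = 0) (hc : ∑ j, c j * x j = 0) :
    (∀ i, x i = 0) ∨ (yp = 0 ∧ ∀ i, y i = 0) := by
  obtain ⟨g1, g2, g3, g4, g5, g6, -⟩ := hG
  have e : ∀ i, x i ≠ 0 → y i = 0 ∧ u i * yp + (A i 0 * y 0 + A i 1 * y 1 + A i 2 * y 2) = 0 := by
    intro i hi
    refine ⟨(mul_eq_zero.1 (hxy i)).resolve_left hi, ?_⟩
    have := (mul_eq_zero.1 (h1 i)).resolve_left hi
    rwa [Fin.sum_univ_three] at this
  have f : ∀ i, y i * (A i 0 * x 0 + A i 1 * x 1 + A i 2 * x 2) = 0 := by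
    intro i
    have := h2 i
    rwa [Fin.sum_univ_three] at this
  rw [Fin.sum_univ_three] at hc
  have fin : yp = 0 → y 0 = 0 → y 1 = 0 → y 2 = 0 →
      (∀ i, x i = 0) ∨ (yp = 0 ∧ ∀ i, y i = 0) := by
    intro r r0 r1 r2
    right
    refine ⟨r, ?_⟩
    intro i
    fin_cases i <;> assumption
  have f0 := f 0
  have f1 := f 1
  have f2 := f 2
  by_cases x0 : x 0 = 0
  · rw [x0] at f0 f1 f2 hc
    by_cases x1 : x 1 = 0
    · rw [x1] at f0 f1 f2 hc
      by_cases x2 : x 2 = 0
      · left
        intro i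
        fin_cases i <;> assumption
      · -- only x 2
        obtain ⟨y2, a2⟩ := e 2 x2
        rw [y2] at a2
        obtain ⟨r1, r2, r3⟩ := one (uj := u 0) (uk := u 1) (aij := A 2 0) (aji := A 0 2)
          (aik := A 2 1) (aki := A 1 2) (ci := c 2) (cj := c 0) (ck := c 1) (yj := y 0)
          (yk := y 1) (yp := yp) (hu 2) x2
          (by linear_combination hc) (by linear_combination f0) (by linear_combination f1)
          g5.symm g6.symm (by linear_combination a2)
        exact fin r1 r2 r3 y2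
    · by_cases x2 : x 2 = 0
      · -- only x 1
        rw [x2] at f0 f1 f2 hc
        obtain ⟨y1, a1⟩ := e 1 x1
        rw [y1] at a1
        obtain ⟨r1, r2, r3⟩ := one (uj := u 0) (uk := u 2) (aij := A 1 0) (aji := A 0 1)
          (aik := A 1 2) (aki := A 2 1) (ci := c 1) (cj := c 0) (ck := c 2) (yj := y 0)
          (yk := y 2) (yp := yp) (hu 1) x1
          (by linear_combination hc) (by linear_combination f0) (by linear_combination f2)
          g4.symm g6 (by linear_combination a1)
        exact fin r1 r2 y1 r3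
      · -- x 1 and x 2
        obtain ⟨y1, a1⟩ := e 1 x1
        obtain ⟨y2, a2⟩ := e 2 x2
        rw [y1, y2] at a1 a2
        obtain ⟨r1, r2⟩ := two (aik := A 1 0) (ajk := A 2 0) (yk := y 0) (yp := yp) (hu 1) (hu 2)
          (by linear_combination a1) (by linear_combination a2) g1.symm
        exact fin r1 r2 y1 y2
  · obtain ⟨y0, a0⟩ := e 0 x0
    by_cases x1 : x 1 = 0
    · rw [x1] at f0 f1 f2 hc
      by_cases x2 : x 2 = 0
      · -- only x 0
        rw [x2] at f0 f1 f2 hc
        rw [y0] at a0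
        obtain ⟨r1, r2, r3⟩ := one (uj := u 1) (uk := u 2) (aij := A 0 1) (aji := A 1 0)
          (aik := A 0 2) (aki := A 2 0) (ci := c 0) (cj := c 1) (ck := c 2) (yj := y 1)
          (yk := y 2) (yp := yp) (hu 0) x0
          (by linear_combination hc) (by linear_combination f1) (by linear_combination f2)
          g4 g5 (by linear_combination a0)
        exact fin r1 y0 r2 r3
      · -- x 0 and x 2
        obtain ⟨y2, a2⟩ := e 2 x2
        rw [y0, y2] at a0 a2
        obtain ⟨r1, r2⟩ := two (aik := A 0 1) (ajk := A 2 1) (yk := y 1) (yp := yp) (hu 0) (hu 2)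
          (by linear_combination a0) (by linear_combination a2) g2
        exact fin r1 y0 r2 y2
    · obtain ⟨y1, a1⟩ := e 1 x1
      by_cases x2 : x 2 = 0
      · -- x 0 and x 1
        rw [y0, y1] at a0 a1
        obtain ⟨r1, r2⟩ := two (aik := A 0 2) (ajk := A 1 2) (yk := y 2) (yp := yp) (hu 0) (hu 1)
          (by linear_combination a0) (by linear_combination a1) g3.symm
        exact fin r1 y0 y1 r2
      · obtain ⟨y2, a2⟩ := e 2 x2
        rw [y0, y1, y2] at a0
        have h : u 0 * yp = 0 := by linear_combination a0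
        exact fin ((mul_eq_zero.1 h).resolve_left (hu 0)) y0 y1 y2

/-- Job NP. -/
theorem t_NP : Pool.Agent.V5helper57.OT.S_NP := by
  intro K _ u A c hu hG xp yp x y hxy h1 h2 h
  rcases h with ⟨hp, hc⟩ | ⟨hp, hc⟩
  · have h3 : ∀ i, y i * (∑ j, A i j * x j) = 0 := by
      intro i
      have := h2 i
      rwa [hp, mul_zero, zero_add] at this
    rcases core u A c hu hG yp x y hxy h1 h3 hc with h4 | h4
    · exact Or.inl ⟨hp, h4⟩
    · exact Or.inr h4
  · have h3 : ∀ i, x i * (∑ j, A i j * y j) = 0 := by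
      intro i
      have := h1 i
      rwa [hp, mul_zero, zero_add] at this
    have hyx : ∀ i, y i * x i = 0 := by
      intro i
      rw [mul_comm]
      exact hxy i
    rcases core u A c hu hG xp y x hyx h2 h3 hc with h4 | h4
    · exact Or.inr ⟨hp, h4⟩
    · exact Or.inl h4

end Pool.Agent.V5helper9.OT
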